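import Pool.Agent.H6.CExF

namespace Pool.Agent.Results.MP_2c76b2_co.Q1
open SimpleGraph

/-- For `H = P₃` (the path on three vertices) and every `r` there is a finite graph `F` with
`χ(F) > r` such that for infinitely many `n` no `n`-vertex `F`-free graph maximises both the
number of copies of `H` and the number of edges. -/
theorem result (r : ℕ) : ∃ (U : Type) (_ : Fintype U) (F : SimpleGraph U),
    (r : ℕ∞) < F.chromaticNumber ∧
    ∀ n₀ : ℕ, ∃ n ≥ n₀, ¬ ∃ G : SimpleGraph (Fin n), F.Free G ∧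
      (∀ G' : SimpleGraph (Fin n), F.Free G' →
        G'.copyCount (pathGraph 3) ≤ G.copyCount (pathGraph 3)) ∧
      (∀ G' : SimpleGraph (Fin n), F.Free G' → G'.edgeSet.ncard ≤ G.edgeSet.ncard) := by
  refine ⟨_, inferInstance, Pool.Agent.H6.CEx.FF (2 * r + 3) (5 * r + 7), ?_,
    Pool.Agent.H6.CEx.final r _ _ rfl rfl⟩
  refine lt_of_lt_of_le ?_ (Pool.Agent.H6.CEx.chi _ _)
  exact_mod_cast (by omega : r < 2 * r + 3 + 1)

end Pool.Agent.Results.MP_2c76b2_co.Q1
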